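import Pool.Agent.TH50.DQ.Tasks
import Pool.Agent.H422R2.LP.NMain

/-!
# Non-vanishing of the Hankel determinants for `1, Li₁(1/z), Li₂(1/z)` (job 4030)

Port of `Pool/Agent/TH634/DL/NMain.lean` (helper634, helper783) to a general integer `z ≠ 0, 1`:
one of the three determinants of size `4n-1`, `4n`, `4n+1` is nonzero.
-/

set_option autoImplicit false

open Polynomial

namespace Pool.Agent.TH811.DQ

noncomputable section

open Pool.Agent.LP hiding L Lf DD
open Pool.Agent.TH50.DQ
open Pool.Agent.H783R2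

/-! ### The functional without the numerator -/

/-- `S(1/(s+k))` up to the factor `2^k` -/
def sg (z : ℤ) (α β γ : ℚ) (k : ℕ) : ℚ := γ + α * Tz z 1 k + β * Tz z 2 k

lemma Tz_succ (z : ℤ) (j k : ℕ) :
    Tz z j (k + 1) = Tz z j k + (1 / (z : ℚ)) ^ (k + 1) / ((k + 1 : ℕ) : ℚ) ^ j := by
  unfold Tz
  rw [Finset.sum_Icc_succ_top (by omega)]

lemma sg_step {z : ℤ} (hz : z ≠ 0) (α β γ : ℚ) (l : ℕ) :
    (z : ℚ) ^ (l + 1) * (sg z α β γ (l + 1) - sg z α β γ l) = α / (l + 1) + β / (l + 1) ^ 2 := by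
  unfold sg
  rw [Tz_succ, Tz_succ]
  have hz' : (z : ℚ) ≠ 0 := by exact_mod_cast hz
  have h1 : ((l : ℚ) + 1) ≠ 0 := by positivity
  have h2 : ((z : ℚ) ^ (l + 1)) * ((1 / (z : ℚ)) ^ (l + 1)) = 1 := by
    rw [← mul_pow, mul_one_div_cancel hz', one_pow]
  push_cast
  rw [pow_one]
  have h3 : (z : ℚ) ^ (l + 1) * (γ + α * (Tz z 1 l + (1 / (z : ℚ)) ^ (l + 1) / ((l : ℚ) + 1)) +
      β * (Tz z 2 l + (1 / (z : ℚ)) ^ (l + 1) / ((l : ℚ) + 1) ^ 2) -
        (γ + α * Tz z 1 l + β * Tz z 2 l))
      = ((z : ℚ) ^ (l + 1) * (1 / (z : ℚ)) ^ (l + 1)) * (α / (l + 1) + β / (l + 1) ^ 2) := by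
    ring
  rw [h3, h2, one_mul]

/-- the functional `g ↦ S(g / Pn)` -/
def Lt (z : ℤ) (a b : ℕ) (α β γ : ℚ) : ℚ[X] →ₗ[ℚ] ℚ :=
  ∑ k ∈ Finset.Icc a b, ((z : ℚ) ^ k * sg z α β γ k / ∏ j ∈ (Finset.Icc a b).erase k, ((j : ℚ) - k)) •
    (Polynomial.leval (-(k : ℚ))) + (β • (EB z ∘ₗ derivative) - α • EB z) ∘ₗ dvP a b

lemma Lt_apply (z : ℤ) (a b : ℕ) (α β γ : ℚ) (g : ℚ[X]) :
    Lt z a b α β γ g = ∑ k ∈ Finset.Icc a b,
      ((z : ℚ) ^ k * sg z α β γ k / ∏ j ∈ (Finset.Icc a b).erase k, ((j : ℚ) - k)) * g.eval (-(k : ℚ))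
      + (β * EB z (derivative (g /ₘ Pn a b)) - α * EB z (g /ₘ Pn a b)) := by
  unfold Lt
  simp only [LinearMap.add_apply, LinearMap.sum_apply, LinearMap.smul_apply, leval_apply, smul_eq_mul,
    LinearMap.comp_apply, LinearMap.sub_apply, dvP_apply]

lemma L_eq_Lt (z : ℤ) (a b : ℕ) (α β γ : ℚ) (f : ℚ[X]) : L z a b α β γ f = Lt z a b α β γ (An a * f) := by
  rw [Lt_apply]
  show Lf z a b α β γ f = _
  unfold Lf rs pp sg
  have h1 : ∑ k ∈ Finset.Icc a b, (z : ℚ) ^ k *
      ((An a * f).eval (-(k : ℚ)) / ∏ j ∈ (Finset.Icc a b).erase k, ((j : ℚ) - k)) *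
        (γ + α * Tz z 1 k + β * Tz z 2 k) = ∑ k ∈ Finset.Icc a b,
      ((z : ℚ) ^ k * (γ + α * Tz z 1 k + β * Tz z 2 k) / ∏ j ∈ (Finset.Icc a b).erase k, ((j : ℚ) - k)) *
        (An a * f).eval (-(k : ℚ)) := Finset.sum_congr rfl fun k _ => by ring
  rw [h1]
  ring

lemma Lt_Pn_mul (z : ℤ) (a b : ℕ) (α β γ : ℚ) (q : ℚ[X]) :
    Lt z a b α β γ (Pn a b * q) = β * EB z (derivative q) - α * EB z q := by
  rw [Lt_apply, mul_divByMonic_cancel_left _ (Pn_monic a b), Finset.sum_eq_zero, zero_add]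
  intro k hk
  have : (Pn a b * q).eval (-(k : ℚ)) = 0 := by
    rw [eval_mul, Pn_eq, nds_eval, Finset.prod_eq_zero hk (by ring), zero_mul]
  rw [this, mul_zero]

lemma Lt_nds (z : ℤ) (a b : ℕ) (α β γ : ℚ) (k : ℕ) (hk : k ∈ Finset.Icc a b) :
    Lt z a b α β γ (nds ((Finset.Icc a b).erase k)) = (z : ℚ) ^ k * sg z α β γ k := by
  have hdiv : nds ((Finset.Icc a b).erase k) /ₘ Pn a b = 0 := by
    rw [divByMonic_eq_zero_iff (Pn_monic a b)]
    have h1 : (nds ((Finset.Icc a b).erase k)).natDegree < (Pn a b).natDegree := by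
      rw [Pn_eq, nds_natDegree, nds_natDegree]
      exact Finset.card_erase_lt_of_mem hk
    exact degree_lt_degree h1
  rw [Lt_apply, hdiv, derivative_zero, map_zero, mul_zero, mul_zero, sub_zero, add_zero,
    Finset.sum_eq_single k]
  · rw [nds_eval]
    have h2 : ∏ j ∈ (Finset.Icc a b).erase k, (-(k : ℚ) + j) =
        ∏ j ∈ (Finset.Icc a b).erase k, ((j : ℚ) - k) := Finset.prod_congr rfl fun j _ => by ring
    have h3 : ∏ j ∈ (Finset.Icc a b).erase k, ((j : ℚ) - k) ≠ 0 := by
      rw [Finset.prod_ne_zero_iff]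
      intro j hj
      rw [sub_ne_zero]
      exact_mod_cast (Finset.mem_erase.mp hj).1
    rw [h2, div_mul_cancel₀ _ h3]
  · intro j hj hjk
    rw [nds_eval, Finset.prod_eq_zero (Finset.mem_erase.mpr ⟨hjk, hj⟩) (by ring), mul_zero]
  · intro h
    exact absurd hk h

/-- the shift identity of `Lt` -/
theorem Lt_shift {z : ℤ} (hz : z ≠ 0) (hz1 : z ≠ 1) (a c : ℕ) (hac : a ≤ c + 1) (α β γ : ℚ) (u : ℚ[X]) :
    (z : ℚ) * Lt z a (c + 1) α β γ ((X + C ((c + 1 : ℕ) : ℚ)) * u) - Lt z a (c + 1) α β γ ((X + C (a : ℚ)) * u.comp (X + 1)) =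
      -α * (u.eval 1 / (Pn a c).eval 1) +
        β * (((derivative u).eval 1 * (Pn a c).eval 1 - u.eval 1 * (derivative (Pn a c)).eval 1) /
          (Pn a c).eval 1 ^ 2) := by
  classical
  have hD : (Pn a c).eval 1 ≠ 0 := by
    rw [Pn_eq, nds_eval, Finset.prod_ne_zero_iff]
    intro j _
    positivity
  -- closure properties
  let Qp : ℚ[X] → Prop := fun u =>
    (z : ℚ) * Lt z a (c + 1) α β γ ((X + C ((c + 1 : ℕ) : ℚ)) * u) - Lt z a (c + 1) α β γ ((X + C (a : ℚ)) * u.comp (X + 1)) =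
      -α * (u.eval 1 / (Pn a c).eval 1) +
        β * (((derivative u).eval 1 * (Pn a c).eval 1 - u.eval 1 * (derivative (Pn a c)).eval 1) /
          (Pn a c).eval 1 ^ 2)
  have hadd : ∀ u v, Qp u → Qp v → Qp (u + v) := by
    intro u v hu hv
    simp only [Qp] at hu hv ⊢
    simp only [mul_add, map_add, add_comp, eval_add]
    linear_combination hu + hv
  have hsmul : ∀ (k : ℚ) u, Qp u → Qp (k • u) := by
    intro k u hu
    simp only [Qp] at hu ⊢
    have e1 : (X + C ((c + 1 : ℕ) : ℚ)) * (k • u) = k • ((X + C ((c + 1 : ℕ) : ℚ)) * u) := mul_smul_comm _ _ _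
    have e2 : (X + C (a : ℚ)) * (k • u).comp (X + 1) = k • ((X + C (a : ℚ)) * u.comp (X + 1)) := by
      rw [smul_comp, mul_smul_comm]
    rw [e1, e2]
    simp only [map_smul, eval_smul, smul_eq_mul]
    linear_combination k * hu
  have hzero : Qp 0 := by
    simp [Qp]
  -- polynomial multiples of Pn
  have e1 : (X + C ((c + 1 : ℕ) : ℚ)) * Pn a c = Pn a (c + 1) := by
    rw [Pn_eq, Pn_eq, ← nds_insert (by simp)]
    congr 1
    ext x
    simp only [Finset.mem_insert, Finset.mem_Icc]
    omega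
  have e2 : (X + C (a : ℚ)) * (Pn a c).comp (X + 1) = Pn a (c + 1) := by
    rw [Pn_eq, Pn_eq, nds_comp, ← nds_insert]
    · congr 1
      ext x
      simp only [Finset.mem_insert, Finset.mem_image, Finset.mem_Icc]
      constructor
      · rintro (h | ⟨y, hy, rfl⟩) <;> omega
      · intro h
        by_cases hx : x = a
        · left; exact hx
        · right; exact ⟨x - 1, by omega, by omega⟩
    · simp only [Finset.mem_image, Finset.mem_Icc, not_exists, not_and]
      intro y hy
      omega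
  have hpoly : ∀ q : ℚ[X], Qp (Pn a c * q) := by
    intro q
    simp only [Qp]
    rw [← mul_assoc, e1, mul_comp, ← mul_assoc, e2, Lt_Pn_mul, Lt_Pn_mul]
    have h1 := EB_shift hz1 q
    have h2 := EB_shift hz1 (derivative q)
    have h3 : derivative (q.comp (X + 1)) = (derivative q).comp (X + 1) := by
      rw [derivative_comp]
      simp
    rw [h3]
    simp only [derivative_mul, eval_mul, eval_add]
    have h4 : (z : ℚ) * (β * EB z (derivative q) - α * EB z q) -
        (β * EB z ((derivative q).comp (X + 1)) - α * EB z (q.comp (X + 1)))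
        = -α * q.eval 1 + β * (derivative q).eval 1 := by
      linear_combination (-α) * h1 + β * h2
    rw [h4]
    field_simp
    ring
  -- simple fractions
  have hfrac : ∀ l ∈ Finset.Icc a c, Qp (nds ((Finset.Icc a c).erase l)) := by
    intro l hl
    have hl' := Finset.mem_Icc.mp hl
    simp only [Qp]
    have f1 : (X + C ((c + 1 : ℕ) : ℚ)) * nds ((Finset.Icc a c).erase l) =
        nds ((Finset.Icc a (c + 1)).erase l) := by
      rw [← nds_insert (by simp)]
      congr 1
      ext x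
      simp only [Finset.mem_insert, Finset.mem_Icc, Finset.mem_erase]
      omega
    have f2 : (X + C (a : ℚ)) * (nds ((Finset.Icc a c).erase l)).comp (X + 1) =
        nds ((Finset.Icc a (c + 1)).erase (l + 1)) := by
      rw [nds_comp, ← nds_insert]
      · congr 1
        ext x
        simp only [Finset.mem_insert, Finset.mem_image, Finset.mem_Icc, Finset.mem_erase]
        constructor
        · rintro (h | ⟨y, hy, rfl⟩) <;> omega
        · intro h
          by_cases hx : x = a
          · left; exact hx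
          · right; exact ⟨x - 1, by omega, by omega⟩
      · simp only [Finset.mem_image, Finset.mem_Icc, Finset.mem_erase, not_exists, not_and]
        intro y hy
        omega
    rw [f1, f2, Lt_nds _ _ _ _ _ _ _ (Finset.mem_Icc.mpr ⟨by omega, by omega⟩),
      Lt_nds _ _ _ _ _ _ _ (Finset.mem_Icc.mpr ⟨by omega, by omega⟩)]
    have h1 : (X + C (l : ℚ)) * nds ((Finset.Icc a c).erase l) = Pn a c := by
      rw [Pn_eq, ← nds_insert (by simp), Finset.insert_erase hl]
    have h2 : (1 + (l : ℚ)) * (nds ((Finset.Icc a c).erase l)).eval 1 = (Pn a c).eval 1 := by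
      rw [← h1]; simp
    have h3 : (nds ((Finset.Icc a c).erase l)).eval 1 +
        (1 + (l : ℚ)) * (derivative (nds ((Finset.Icc a c).erase l))).eval 1 = (derivative (Pn a c)).eval 1 := by
      rw [← h1]; simp [derivative_mul]
    have hl1 : (1 + (l : ℚ)) ≠ 0 := by positivity
    have hn : (nds ((Finset.Icc a c).erase l)).eval 1 ≠ 0 := by
      intro h0
      rw [h0, mul_zero] at h2
      exact hD h2.symm
    have h4 := sg_step hz α β γ l
    have h5 : (z : ℚ) * ((z : ℚ) ^ l * sg z α β γ l) - (z : ℚ) ^ (l + 1) * sg z α β γ (l + 1) =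
        -(α / (l + 1) + β / (l + 1) ^ 2) := by
      rw [← h4]; ring
    rw [h5, ← h3, ← h2]
    set x := (nds ((Finset.Icc a c).erase l)).eval 1 with hx
    set y := (derivative (nds ((Finset.Icc a c).erase l))).eval 1 with hy
    have hl2 : ((l : ℚ) + 1) ≠ 0 := by positivity
    have h6 : (y * ((1 + (l : ℚ)) * x) - x * (x + (1 + (l : ℚ)) * y)) = - x ^ 2 := by ring
    rw [h6]
    field_simp
    ring
  have hdec := modByMonic_add_div u (Pn a c)
  obtain ⟨k, hk⟩ := decomp (Finset.Icc a c) (u %ₘ Pn a c) (by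
    have h1 := degree_modByMonic_lt u (Pn_monic a c)
    have h2 : (Pn a c).degree = ((Finset.Icc a c).card : ℕ) := by
      rw [degree_eq_natDegree (Pn_monic a c).ne_zero, Pn_eq, nds_natDegree]
    rwa [h2] at h1)
  have hQ : Qp u := by
    rw [← hdec]
    apply hadd _ _ _ (hpoly _)
    rw [hk]
    exact Finset.sum_induction _ Qp hadd hzero fun l hl => hsmul _ _ (hfrac l hl)
  exact hQ

/-- the shift identity of `L` -/
theorem L_shift {z : ℤ} (hz : z ≠ 0) (hz1 : z ≠ 1) (a c : ℕ) (hac : a ≤ c + 1) (α β γ : ℚ) (v : ℚ[X]) :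
    (z : ℚ) * L z a (c + 1) α β γ ((X + C ((c + 1 : ℕ) : ℚ)) * (X - 1) * v) -
      L z a (c + 1) α β γ ((X + C (a : ℚ)) ^ 2 * v.comp (X + 1)) =
      (β * (An a).eval 1 / (Pn a c).eval 1) * v.eval 1 := by
  have hD : (Pn a c).eval 1 ≠ 0 := by
    rw [Pn_eq, nds_eval, Finset.prod_ne_zero_iff]
    intro j _
    positivity
  have h1 := Lt_shift hz hz1 a c hac α β γ (An a * (X - 1) * v)
  have e1 : An a * ((X + C ((c + 1 : ℕ) : ℚ)) * (X - 1) * v) =
      (X + C ((c + 1 : ℕ) : ℚ)) * (An a * (X - 1) * v) := by ring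
  have e2 : An a * ((X + C (a : ℚ)) ^ 2 * v.comp (X + 1)) =
      (X + C (a : ℚ)) * (An a * (X - 1) * v).comp (X + 1) := by
    rw [mul_comp, mul_comp]
    simp only [sub_comp, X_comp, one_comp, add_sub_cancel_right]
    have h2 := An_comp a
    calc An a * ((X + C (a : ℚ)) ^ 2 * v.comp (X + 1))
        = (X + C (a : ℚ)) * ((X + C (a : ℚ)) * An a) * v.comp (X + 1) := by ring
      _ = (X + C (a : ℚ)) * (X * (An a).comp (X + 1)) * v.comp (X + 1) := by rw [h2]
      _ = _ := by ring
  rw [L_eq_Lt, L_eq_Lt, e1, e2, h1]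
  simp only [derivative_mul, eval_mul, eval_add, eval_sub, eval_X, eval_one, sub_self, mul_zero,
    zero_mul, derivative_sub, derivative_X, derivative_one, sub_zero, mul_one, zero_add, zero_div,
    add_zero]
  field_simp

/-! ### The functional is not zero -/

theorem exists_L_ne_zero {z : ℤ} (hz : z ≠ 0) (hz1 : z ≠ 1) (a c : ℕ) (hac : a ≤ c + 1)
    (α β γ : ℚ) (hab : α ≠ 0 ∨ β ≠ 0) :
    ∃ f : ℚ[X], L z a (c + 1) α β γ f ≠ 0 := by
  classical
  by_contra hcon
  push Not at hcon
  have hD : (Pn a c).eval 1 ≠ 0 := by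
    rw [Pn_eq, nds_eval, Finset.prod_ne_zero_iff]
    intro j _
    positivity
  have hP := Lt_shift hz hz1 a c hac α β γ
  set T := Lt z a (c + 1) α β γ with hT
  have hcon' : ∀ f : ℚ[X], T (An a * f) = 0 := by
    intro f
    have := hcon f
    rwa [L_eq_Lt] at this
  let J : Ideal ℚ[X] :=
    { carrier := {w | ∀ q : ℚ[X], T (w * q) = 0}
      add_mem' := by
        intro x y hx hy q
        rw [add_mul, map_add, hx q, hy q, add_zero]
      zero_mem' := by
        intro q
        rw [zero_mul, map_zero]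
      smul_mem' := by
        intro c x hx q
        have : c • x * q = x * (c * q) := by rw [smul_eq_mul]; ring
        rw [this]
        exact hx _ }
  have hJ : ∀ w : ℚ[X], w ∈ J ↔ ∀ q : ℚ[X], T (w * q) = 0 := fun w => Iff.rfl
  have hWJ : An a ∈ J := (hJ _).mpr hcon'
  set w0 := Submodule.IsPrincipal.generator J with hw0
  have hmem : ∀ w : ℚ[X], w ∈ J ↔ w0 ∣ w := fun w =>
    Submodule.IsPrincipal.mem_iff_generator_dvd J
  have hw0J : w0 ∈ J := (hmem w0).mpr dvd_rfl
  have hAn0 : An a ≠ 0 := by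
    rw [An_eq]
    exact (nds_monic _).ne_zero
  have hw00 : w0 ≠ 0 := by
    intro h0
    have := (hmem _).mp hWJ
    rw [h0, zero_dvd_iff] at this
    exact hAn0 this
  have hdown : w0 ∣ (X + C ((c + 1 : ℕ) : ℚ)) * (X - 1) ^ 2 * w0.comp (X - 1) := by
    rw [← hmem, hJ]
    intro q
    have h1 := hP ((X - 1) ^ 2 * w0.comp (X - 1) * q)
    have hzz : T ((X + C (a : ℚ)) * ((X - 1) ^ 2 * w0.comp (X - 1) * q).comp (X + 1)) = 0 := by
      have : (X + C (a : ℚ)) * ((X - 1) ^ 2 * w0.comp (X - 1) * q).comp (X + 1)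
          = w0 * ((X + C (a : ℚ)) * X ^ 2 * q.comp (X + 1)) := by
        rw [mul_comp, mul_comp, pow_comp, comp_assoc]
        simp only [sub_comp, X_comp, one_comp, add_sub_cancel_right, comp_X]
        ring
      rw [this]
      exact (hJ w0).mp hw0J _
    have hc : (X + C ((c + 1 : ℕ) : ℚ)) * ((X - 1) ^ 2 * w0.comp (X - 1) * q)
        = (X + C ((c + 1 : ℕ) : ℚ)) * (X - 1) ^ 2 * w0.comp (X - 1) * q := by ring
    rw [hzz, hc, sub_zero] at h1
    have hzq : (z : ℚ) ≠ 0 := by exact_mod_cast hz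
    have h9 : ∀ x : ℚ, (z : ℚ) * x = 0 → x = 0 := fun x hx => (mul_eq_zero.mp hx).resolve_left hzq
    apply h9
    rw [h1]
    simp [derivative_mul, derivative_pow]
  by_cases hpos : w0.natDegree = 0
  · obtain ⟨k, hk⟩ := natDegree_eq_zero.mp hpos
    have hk0 : k ≠ 0 := by
      intro h0
      rw [h0, C_0] at hk
      exact hw00 hk.symm
    have hall : ∀ f : ℚ[X], T f = 0 := by
      intro f
      have h1 := (hJ w0).mp hw0J (C k⁻¹ * f)
      rwa [← hk, ← mul_assoc, ← C_mul, mul_inv_cancel₀ hk0, C_1, one_mul] at h1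
    have h2 := hP (X - 1)
    rw [hall, hall] at h2
    simp only [eval_sub, eval_X, eval_one, sub_self, derivative_sub, derivative_X, derivative_one,
      sub_zero, one_mul, zero_mul, zero_div, mul_zero, add_zero, zero_sub] at h2
    have hβ : β = 0 := by
      by_contra hne
      have : β * ((Pn a c).eval 1 / (Pn a c).eval 1 ^ 2) ≠ 0 :=
        mul_ne_zero hne (div_ne_zero hD (pow_ne_zero 2 hD))
      apply this
      linarith
    have h3 := hP 1
    rw [hall, hall, hβ] at h3
    simp only [eval_one, zero_mul, sub_zero, add_zero] at h3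
    have hα : α = 0 := by
      by_contra hne
      have : α * (1 / (Pn a c).eval 1) ≠ 0 := mul_ne_zero hne (div_ne_zero one_ne_zero hD)
      exact this (by linarith)
    rcases hab with h | h
    · exact h hα
    · exact h hβ
  · let F := AlgebraicClosure ℚ
    obtain ⟨x, hx⟩ := IsAlgClosed.exists_aeval_eq_zero F w0 (by
      intro h0
      exact hpos (natDegree_eq_of_degree_eq_some h0))
    obtain ⟨R, hR⟩ := (hmem _).mp hWJ
    have hxA : aeval x (An a) = 0 := by rw [hR, map_mul, hx, zero_mul]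
    unfold An at hxA
    rw [map_prod, Finset.prod_eq_zero_iff] at hxA
    obtain ⟨i, hi, hxi⟩ := hxA
    have hia := Finset.mem_range.mp hi
    have hxi' : x = -(i : F) := by
      simp only [map_add, aeval_X, aeval_C, map_natCast] at hxi
      linear_combination hxi
    have h0 : w0.eval (-(i : ℚ)) = 0 := by
      have h4 : aeval (algebraMap ℚ F (-(i : ℚ))) w0 = algebraMap ℚ F (w0.eval (-(i : ℚ))) :=
        aeval_algebraMap_apply _ _ _
      rw [map_neg, map_natCast, ← hxi', hx] at h4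
      exact (map_eq_zero (algebraMap ℚ F)).mp h4.symm
    obtain ⟨R2, hR2⟩ := hdown
    have hd : ∀ j : ℕ, i + j ≤ a → w0.eval (-((i + j : ℕ) : ℚ)) = 0 := by
      intro j
      induction j with
      | zero => intro _; simpa using h0
      | succ j ih =>
        intro hj
        have h1 := congrArg (eval (-((i + j : ℕ) : ℚ))) hR2
        rw [eval_mul, eval_mul, eval_mul, ih (by omega), zero_mul, eval_comp] at h1
        simp only [eval_sub, eval_X, eval_one, eval_add, eval_C, eval_pow] at h1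
        have h3 : -((i + (j + 1) : ℕ) : ℚ) = -((i + j : ℕ) : ℚ) - 1 := by push_cast; ring
        rw [h3]
        rcases mul_eq_zero.mp h1 with h2 | h2
        · rcases mul_eq_zero.mp h2 with h5 | h5
          · exfalso
            have h6 : ((c + 1 : ℕ) : ℚ) = ((i + j : ℕ) : ℚ) := by linear_combination h5
            have h7 : c + 1 = i + j := by exact_mod_cast h6
            omega
          · exfalso
            have h6 : -((i + j : ℕ) : ℚ) - 1 = 0 := by
              rcases pow_eq_zero_iff (two_ne_zero) |>.mp h5 with h8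
              exact h8
            have h7 : ((i + j : ℕ) : ℚ) + 1 = 0 := by linear_combination -h6
            have h8 : i + j + 1 = 0 := by exact_mod_cast h7
            omega
        · exact h2
    have h5 := hd (a - i) (by omega)
    have h6 : i + (a - i) = a := by omega
    rw [h6] at h5
    have h7 : (An a).eval (-(a : ℚ)) = 0 := by rw [hR, eval_mul, h5, zero_mul]
    rw [An_eq, nds_eval, Finset.prod_eq_zero_iff] at h7
    obtain ⟨j, hj, h8⟩ := h7
    have h9 : (a : ℚ) = (j : ℚ) := by linear_combination -h8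
    have h10 : a = j := by exact_mod_cast h9
    have := Finset.mem_range.mp hj
    omega

/-! ### The zero estimate -/

theorem ze {z : ℤ} (hz : z ≠ 0) (hz1 : z ≠ 1) (a c N : ℕ) (hac : a ≤ c + 1) (hN : 2 ≤ N)
    (L : ℚ[X] →ₗ[ℚ] ℚ) (c0 : ℚ)
    (hP : ∀ v : ℚ[X], (z : ℚ) * L ((X + C ((c + 1 : ℕ) : ℚ)) * (X - 1) * v) -
      L ((X + C (a : ℚ)) ^ 2 * v.comp (X + 1)) = c0 * v.eval 1)
    (hL0 : ∃ f, L f ≠ 0) (Q : ℚ[X]) (hQ0 : Q ≠ 0) (hQ : Zp L N Q)
    (hQh : Q.natDegree + a ≤ c + 1) : N ≤ Q.natDegree + 1 := by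
  classical
  by_contra hcon
  have hex : ∃ r : ℕ, ∃ P : ℚ[X], P ≠ 0 ∧ Zp L N P ∧ P.natDegree = r := ⟨_, Q, hQ0, hQ, rfl⟩
  obtain ⟨P, hP0, hPZ, hPr⟩ := Nat.find_spec hex
  have hmin : ∀ P' : ℚ[X], P' ≠ 0 → Zp L N P' → P.natDegree ≤ P'.natDegree := by
    intro P' h1 h2
    rw [hPr]
    exact Nat.find_min' hex ⟨P', h1, h2, rfl⟩
  have hle := hmin Q hQ0 hQ
  have hr : P.natDegree + 3 ≤ N + 1 := by omega
  clear hPr hcon
  have hdiv1 : P ∣ X * (X + C (a : ℚ)) ^ 2 * P.comp (X + 1) := by
    apply dvd_of_min' L N 3 P _ hP0 hPZ hmin hr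
    · refine le_trans natDegree_mul_le ?_
      have h2 : (X * (X + C (a : ℚ)) ^ 2 : ℚ[X]).natDegree ≤ 3 := by
        refine le_trans natDegree_mul_le ?_
        rw [natDegree_pow, natDegree_X_add_C, natDegree_X]
      rw [natDegree_comp, natDegree_Xp1]
      omega
    · intro g hg
      have h1 := hP (P * ((X - 1) * g.comp (X - 1)))
      have hzz : L ((X + C ((c + 1 : ℕ) : ℚ)) * (X - 1) * (P * ((X - 1) * g.comp (X - 1)))) = 0 := by
        have : (X + C ((c + 1 : ℕ) : ℚ)) * (X - 1) * (P * ((X - 1) * g.comp (X - 1)))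
            = P * ((X + C ((c + 1 : ℕ) : ℚ)) * (X - 1) * ((X - 1) * g.comp (X - 1))) := by ring
        rw [this]
        apply hPZ
        refine le_trans natDegree_mul_le ?_
        have h3 : ((X + C ((c + 1 : ℕ) : ℚ)) * (X - 1) : ℚ[X]).natDegree ≤ 2 := by
          refine le_trans natDegree_mul_le ?_
          rw [natDegree_X_add_C, natDegree_Xm1]
        have h2 : ((X - 1) * g.comp (X - 1) : ℚ[X]).natDegree ≤ 1 + g.natDegree := by
          refine le_trans natDegree_mul_le ?_
          rw [natDegree_Xm1, natDegree_comp, natDegree_Xm1]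
          omega
        omega
      have hc : (X + C (a : ℚ)) ^ 2 * (P * ((X - 1) * g.comp (X - 1))).comp (X + 1)
          = X * (X + C (a : ℚ)) ^ 2 * P.comp (X + 1) * g := by
        rw [mul_comp, mul_comp, comp_assoc]
        simp only [sub_comp, X_comp, one_comp, add_sub_cancel_right, comp_X]
        ring
      rw [hzz, hc] at h1
      have h9 : c0 * eval 1 (P * ((X - 1) * g.comp (X - 1))) = 0 := by simp
      rw [h9, mul_zero] at h1
      linarith
  have hdiv2 : P ∣ (X + C ((c + 1 : ℕ) : ℚ)) * (X - 1) ^ 2 * P.comp (X - 1) := by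
    apply dvd_of_min' L N 3 P _ hP0 hPZ hmin hr
    · refine le_trans natDegree_mul_le ?_
      have h2 : ((X + C ((c + 1 : ℕ) : ℚ)) * (X - 1) ^ 2 : ℚ[X]).natDegree ≤ 3 := by
        refine le_trans natDegree_mul_le ?_
        rw [natDegree_X_add_C, natDegree_pow, natDegree_Xm1]
      rw [natDegree_comp, natDegree_Xm1]
      omega
    · intro g hg
      have h1 := hP ((X - 1) * P.comp (X - 1) * g)
      have hzz : L ((X + C (a : ℚ)) ^ 2 * ((X - 1) * P.comp (X - 1) * g).comp (X + 1)) = 0 := by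
        have : (X + C (a : ℚ)) ^ 2 * ((X - 1) * P.comp (X - 1) * g).comp (X + 1)
            = P * ((X + C (a : ℚ)) ^ 2 * X * g.comp (X + 1)) := by
          rw [mul_comp, mul_comp, comp_assoc]
          simp only [sub_comp, X_comp, one_comp, add_sub_cancel_right, comp_X]
          ring
        rw [this]
        apply hPZ
        refine le_trans natDegree_mul_le ?_
        have h3 : ((X + C (a : ℚ)) ^ 2 * X : ℚ[X]).natDegree ≤ 3 := by
          refine le_trans natDegree_mul_le ?_
          rw [natDegree_pow, natDegree_X_add_C, natDegree_X]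
        rw [natDegree_comp, natDegree_Xp1]
        omega
      have hc : (X + C ((c + 1 : ℕ) : ℚ)) * (X - 1) * ((X - 1) * P.comp (X - 1) * g)
          = (X + C ((c + 1 : ℕ) : ℚ)) * (X - 1) ^ 2 * P.comp (X - 1) * g := by ring
      rw [hzz, hc] at h1
      have h9 : c0 * eval 1 ((X - 1) * P.comp (X - 1) * g) = 0 := by simp
      rw [h9, sub_zero] at h1
      exact (mul_eq_zero.mp h1).resolve_left (by exact_mod_cast hz)
  by_cases hpos : P.natDegree = 0
  · obtain ⟨k, hk⟩ := natDegree_eq_zero.mp hpos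
    have hk0 : k ≠ 0 := by
      rintro rfl
      exact hP0 (by rw [← hk, C_0])
    have hall : ∀ f : ℚ[X], f.natDegree ≤ N → L f = 0 := by
      intro f hf
      have h1 := hPZ (C k⁻¹ * f) (le_trans natDegree_mul_le (by rw [natDegree_C]; omega))
      rwa [← hk, ← mul_assoc, ← C_mul, mul_inv_cancel₀ hk0, C_1, one_mul] at h1
    have hV : ((X + C ((c + 1 : ℕ) : ℚ)) * (X - 1) : ℚ[X]).natDegree ≤ 2 := by
      refine le_trans natDegree_mul_le ?_
      rw [natDegree_X_add_C, natDegree_Xm1]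
    have hW : ((X + C (a : ℚ)) ^ 2 : ℚ[X]).natDegree ≤ 2 := by
      rw [natDegree_pow, natDegree_X_add_C]
    have hc0 : c0 = 0 := by
      have h1 := hP 1
      rw [mul_one, one_comp, mul_one, hall _ (by omega), hall _ (by omega)] at h1
      simpa using h1.symm
    have hVc : ((X + C ((c + 1 : ℕ) : ℚ)) * (X - 1) : ℚ[X]).coeff 2 = 1 := by
      have e1 : (X + C ((c + 1 : ℕ) : ℚ)) * (X - 1) = (X + C ((c + 1 : ℕ) : ℚ)) * (X - C 1) := by rw [C_1]
      have h1 : ((X + C ((c + 1 : ℕ) : ℚ)) * (X - C 1) : ℚ[X]).Monic :=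
        (monic_X_add_C _).mul (monic_X_sub_C _)
      have h2 : ((X + C ((c + 1 : ℕ) : ℚ)) * (X - C 1) : ℚ[X]).natDegree = 2 := by
        rw [(monic_X_add_C _).natDegree_mul (monic_X_sub_C _), natDegree_X_add_C, natDegree_X_sub_C]
      have h3 := h1.coeff_natDegree
      rw [h2] at h3
      rw [e1, h3]
    have hWc : ((X + C (a : ℚ)) ^ 2 : ℚ[X]).coeff 2 = 1 := by
      have h1 : ((X + C (a : ℚ)) ^ 2 : ℚ[X]).Monic := (monic_X_add_C _).pow 2
      have h3 := h1.coeff_natDegree
      rwa [natDegree_pow, natDegree_X_add_C, mul_one] at h3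
    obtain ⟨f, hf⟩ := hL0
    apply hf
    have hV' : (C (z : ℚ) * ((X + C ((c + 1 : ℕ) : ℚ)) * (X - 1)) : ℚ[X]).natDegree ≤ 2 :=
      le_trans (natDegree_C_mul_le _ _) hV
    have hW' : (-(X + C (a : ℚ)) ^ 2 : ℚ[X]).natDegree ≤ 2 := by
      rw [natDegree_neg]; exact hW
    apply all_zero2 L N 2 _ _ hV' hW' (by
        rw [coeff_C_mul, coeff_neg, hVc, hWc, mul_one]
        intro h
        apply hz1
        have h' : (z : ℚ) = 1 := by linarith
        exact_mod_cast h')
      (by omega) _ hall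
    intro u
    have h8 := hP u
    rw [hc0, zero_mul] at h8
    have e1 : C (z : ℚ) * ((X + C ((c + 1 : ℕ) : ℚ)) * (X - 1)) * u =
        (z : ℚ) • ((X + C ((c + 1 : ℕ) : ℚ)) * (X - 1) * u) := by
      rw [smul_eq_C_mul]; ring
    have e2 : -(X + C (a : ℚ)) ^ 2 * u.comp (X + 1) = -((X + C (a : ℚ)) ^ 2 * u.comp (X + 1)) := by
      ring
    rw [e1, e2, map_smul, map_neg, smul_eq_mul]
    linarith
  · let F := AlgebraicClosure ℚ
    obtain ⟨x, hx⟩ := IsAlgClosed.exists_aeval_eq_zero F P (by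
      intro h0
      exact hpos (natDegree_eq_of_degree_eq_some h0))
    obtain ⟨R1, hR1⟩ := hdiv1
    obtain ⟨R2, hR2⟩ := hdiv2
    have up : ∀ y : F, aeval y P = 0 → y ≠ 0 → y + (a : F) ≠ 0 → aeval (y + 1) P = 0 := by
      intro y hy hy0 hya
      have h1 := congrArg (aeval y) hR1
      rw [map_mul, map_mul, map_mul, hy, zero_mul, map_pow, aeval_X, aeval_comp] at h1
      simp only [map_add, aeval_X, map_one, aeval_C, map_natCast] at h1
      rcases mul_eq_zero.mp h1 with h2 | h2
      · exact absurd h2 (mul_ne_zero hy0 (pow_ne_zero _ hya))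
      · exact h2
    have down : ∀ y : F, aeval y P = 0 → y ≠ 1 → y + ((c + 1 : ℕ) : F) ≠ 0 →
        aeval (y - 1) P = 0 := by
      intro y hy hy1 hyh
      have h1 := congrArg (aeval y) hR2
      rw [map_mul, map_mul, map_mul, hy, zero_mul, map_pow, aeval_comp] at h1
      simp only [map_add, map_sub, aeval_X, map_one, aeval_C, map_natCast] at h1
      rcases mul_eq_zero.mp h1 with h2 | h2
      · exact absurd h2 (mul_ne_zero hyh (pow_ne_zero _ (sub_ne_zero.mpr hy1)))
      · exact h2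
    have hxn : ∃ n : ℕ, x + (n : F) = 0 := by
      by_contra hno
      push Not at hno
      apply hP0
      apply eq_zero_of_roots P x (P.natDegree + 1) (Nat.lt_succ_self _) (1 : F) one_ne_zero
      intro i _
      rw [one_mul]
      induction i with
      | zero => simpa using hx
      | succ i ih =>
        have h1 := up _ (ih (by omega)) (hno i) (by
          intro h0
          apply hno (i + a)
          push_cast
          rw [← h0]
          ring)
        have h2 : x + ((i + 1 : ℕ) : F) = x + (i : F) + 1 := by push_cast; ring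
        rw [h2]; exact h1
    obtain ⟨n, hn⟩ := hxn
    have hxn' : x = -(n : F) := by linear_combination hn
    have neg1 : ∀ j : ℕ, -(j : F) ≠ 1 := by
      intro j h0
      have : ((j + 1 : ℕ) : F) = 0 := by push_cast; linear_combination -h0
      have : j + 1 = 0 := by exact_mod_cast this
      omega
    have hnb : n ≤ c + 1 := by
      by_contra hnb
      apply hP0
      apply eq_zero_of_roots P x (P.natDegree + 1) (Nat.lt_succ_self _) (-1 : F) (by norm_num)
      intro i _
      induction i with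
      | zero => simpa using hx
      | succ i ih =>
        have e1 : x + -1 * (i : F) = -((n + i : ℕ) : F) := by rw [hxn']; push_cast; ring
        have h1 := ih (by omega)
        rw [e1] at h1
        have h2 := down _ h1 (neg1 _) (by
          intro h0
          have h3 : ((c + 1 : ℕ) : F) = ((n + i : ℕ) : F) := by linear_combination h0
          have h4 : c + 1 = n + i := by exact_mod_cast h3
          omega)
        have h5 : x + -1 * ((i + 1 : ℕ) : F) = -((n + i : ℕ) : F) - 1 := by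
          rw [hxn']; push_cast; ring
        rw [h5]; exact h2
    -- going down from `-n`
    have hdown : ∀ j : ℕ, n ≤ j → j ≤ c + 1 → aeval (-(j : F)) P = 0 := by
      intro j hj
      induction j, hj using Nat.le_induction with
      | base => intro _; rw [← hxn']; exact hx
      | succ j hj ih =>
        intro hj2
        have h2 := down _ (ih (by omega)) (neg1 j) (by
          intro h0
          have h3 : ((c + 1 : ℕ) : F) = ((j : ℕ) : F) := by linear_combination h0
          have h4 : c + 1 = j := by exact_mod_cast h3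
          omega)
        have h3 : -((j + 1 : ℕ) : F) = -(j : F) - 1 := by push_cast; ring
        rw [h3]; exact h2
    -- going up from `-n`
    have hup : ∀ i : ℕ, a + i ≤ n → aeval (-((n - i : ℕ) : F)) P = 0 := by
      intro i
      induction i with
      | zero => intro _; rw [Nat.sub_zero, ← hxn']; exact hx
      | succ i ih =>
        intro hi
        have h2 := up _ (ih (by omega)) (by
          rw [neg_ne_zero]
          have : n - i ≠ 0 := by omega
          exact_mod_cast this) (by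
          intro h0
          have h3 : ((a : ℕ) : F) = ((n - i : ℕ) : F) := by linear_combination h0
          have h4 : a = n - i := by exact_mod_cast h3
          omega)
        have h3 : -((n - i : ℕ) : F) + 1 = -((n - (i + 1) : ℕ) : F) := by
          have : n - i = (n - (i + 1)) + 1 := by omega
          rw [this]; push_cast; ring
        rw [← h3]; exact h2
    apply hP0
    apply eq_zero_of_roots P (-(a : F)) (c + 1 - a + 1) (by omega) (-1 : F) (by norm_num)
    intro i hi
    have h3 : -(a : F) + -1 * (i : F) = -((a + i : ℕ) : F) := by push_cast; ring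
    rw [h3]
    by_cases hcase : n ≤ a + i
    · exact hdown _ hcase (by omega)
    · have h4 := hup (n - (a + i)) (by omega)
      have h5 : n - (n - (a + i)) = a + i := by omega
      rwa [h5] at h4

/-- general non-vanishing statement -/
theorem nv_gen {z : ℤ} (hz : z ≠ 0) (hz1 : z ≠ 1) (a c N : ℕ) (hac : a ≤ c + 1) (hN : 2 ≤ N) (hNc : N ≤ c + 3 - a) (α β γ : ℚ)
    (h : α ≠ 0 ∨ β ≠ 0) : ∃ m : ℕ, N - 1 ≤ m ∧ m ≤ N + 1 ∧ DD z a (c + 1) m α β γ ≠ 0 := by
  obtain ⟨s, hs, hD, Q, hQm, hQd, hQ⟩ := exists_orth (L z a (c + 1) α β γ) (N + 1)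
  refine ⟨s, ?_, hs, hD⟩
  by_contra hcon
  have := ze hz hz1 a c N hac hN (L z a (c + 1) α β γ) _ (L_shift hz hz1 a c hac α β γ)
    (exists_L_ne_zero hz hz1 a c hac α β γ h) Q hQm.ne_zero
    (fun f hf => orth_ext _ Q N (fun j hj => hQ j (by omega)) f hf) (by omega)
  omega

theorem N_main {z : ℤ} (hz : z ≠ 0) (hz1 : z ≠ 1) {n : ℕ} (hn : 1 ≤ n) (α β γ : ℚ)
    (h : α ≠ 0 ∨ β ≠ 0) :
    ∃ m : ℕ, 4 * n - 1 ≤ m ∧ m ≤ 4 * n + 1 ∧ DD z n (5 * n) m α β γ ≠ 0 := by
  have h1 := nv_gen hz hz1 n (5 * n - 1) (4 * n) (by omega) (by omega) (by omega) α β γ h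
  have h2 : 5 * n - 1 + 1 = 5 * n := by omega
  rw [h2] at h1
  exact h1

end

end Pool.Agent.TH811.DQ

namespace Pool.Agent.TH50.DQ

theorem A_nv : S_nv := fun _ hz hz1 _ hn α β γ h => Pool.Agent.TH811.DQ.N_main hz hz1 hn α β γ h

end Pool.Agent.TH50.DQ
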